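import Pool.Agent.Helper37.DG.Stmts2

set_option autoImplicit false

namespace Pool.Agent.Helper37.DG

/-- two integer vectors on one line through the origin with the same positive value are equal
up to sign -/
theorem irr_parallel (A B C s : ℝ) (hs : 0 < s) (x y x' y' : ℤ)
    (h1 : A * (x : ℝ) ^ 2 + B * (x : ℝ) * (y : ℝ) + C * (y : ℝ) ^ 2 = s)
    (h2 : A * (x' : ℝ) ^ 2 + B * (x' : ℝ) * (y' : ℝ) + C * (y' : ℝ) ^ 2 = s)
    (hd : x * y' - x' * y = 0) : (x' = x ∧ y' = y) ∨ (x' = -x ∧ y' = -y) := by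
  have hd' : (x : ℝ) * y' = x' * y := by
    have : x * y' = x' * y := by linarith
    exact_mod_cast this
  have e1 : (x' : ℝ) ^ 2 * s = (x : ℝ) ^ 2 * s := by
    have : (x' : ℝ) ^ 2 * (A * (x : ℝ) ^ 2 + B * (x : ℝ) * (y : ℝ) + C * (y : ℝ) ^ 2) =
        (x : ℝ) ^ 2 * (A * (x' : ℝ) ^ 2 + B * (x' : ℝ) * (y' : ℝ) + C * (y' : ℝ) ^ 2) := by
      linear_combination (-(B * (x : ℝ) * x') - C * ((x : ℝ) * y' + x' * y)) * hd'
    rw [h1, h2] at this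
    exact this
  have e2 : (y' : ℝ) ^ 2 * s = (y : ℝ) ^ 2 * s := by
    have : (y' : ℝ) ^ 2 * (A * (x : ℝ) ^ 2 + B * (x : ℝ) * (y : ℝ) + C * (y : ℝ) ^ 2) =
        (y : ℝ) ^ 2 * (A * (x' : ℝ) ^ 2 + B * (x' : ℝ) * (y' : ℝ) + C * (y' : ℝ) ^ 2) := by
      linear_combination (A * ((x : ℝ) * y' + x' * y) + B * (y : ℝ) * y') * hd'
    rw [h1, h2] at this
    exact this
  have f1 : x' ^ 2 = x ^ 2 := by
    have := mul_right_cancel₀ hs.ne' e1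
    exact_mod_cast this
  have f2 : y' ^ 2 = y ^ 2 := by
    have := mul_right_cancel₀ hs.ne' e2
    exact_mod_cast this
  rcases sq_eq_sq_iff_eq_or_eq_neg.mp f1 with ha | ha <;>
    rcases sq_eq_sq_iff_eq_or_eq_neg.mp f2 with hb | hb
  · exact Or.inl ⟨ha, hb⟩
  · subst ha
    have hz : x' * y = 0 := by
      rw [hb] at hd
      linarith
    rcases mul_eq_zero.mp hz with h | h
    · exact Or.inr ⟨by rw [h]; rfl, hb⟩
    · exact Or.inl ⟨rfl, by rw [hb, h]; rfl⟩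
  · subst hb
    have hz : x * y' = 0 := by
      rw [ha] at hd
      linarith
    rcases mul_eq_zero.mp hz with h | h
    · exact Or.inl ⟨by rw [ha, h]; rfl, rfl⟩
    · exact Or.inr ⟨ha, by rw [h]; rfl⟩
  · exact Or.inr ⟨ha, hb⟩

theorem st_IRR : ST_IRR := by
  intro A B C _ _ hno s S hs hS
  by_contra hcard
  push Not at hcard
  apply hno
  classical
  obtain ⟨v1, hv1⟩ : S.Nonempty := by
    rw [← Finset.card_pos]
    omega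
  obtain ⟨v2, hv2⟩ : (S \ {v1, -v1}).Nonempty := by
    rw [← Finset.card_pos]
    have h1 := Finset.le_card_sdiff ({v1, -v1} : Finset (ℤ × ℤ)) S
    have h2 : ({v1, -v1} : Finset (ℤ × ℤ)).card ≤ 2 := Finset.card_le_two
    omega
  obtain ⟨v3, hv3⟩ : (S \ {v1, -v1, v2, -v2}).Nonempty := by
    rw [← Finset.card_pos]
    have h1 := Finset.le_card_sdiff ({v1, -v1, v2, -v2} : Finset (ℤ × ℤ)) S
    have h2 : ({v1, -v1, v2, -v2} : Finset (ℤ × ℤ)).card ≤ 4 := Finset.card_le_four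
    omega
  obtain ⟨x1, y1⟩ := v1
  obtain ⟨x2, y2⟩ := v2
  obtain ⟨x3, y3⟩ := v3
  simp only [Finset.mem_sdiff, Finset.mem_insert, Finset.mem_singleton, not_or, Prod.neg_mk,
    Prod.mk.injEq] at hv2 hv3
  have q1 := hS _ hv1
  have q2 := hS _ hv2.1
  have q3 := hS _ hv3.1
  simp only at q1 q2 q3
  have d12 : x1 * y2 - x2 * y1 ≠ 0 := by
    intro h
    rcases irr_parallel A B C s hs x1 y1 x2 y2 q1 q2 h with h | h
    · exact hv2.2.1 h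
    · exact hv2.2.2 h
  have d13 : x1 * y3 - x3 * y1 ≠ 0 := by
    intro h
    rcases irr_parallel A B C s hs x1 y1 x3 y3 q1 q3 h with h | h
    · exact hv3.2.1 h
    · exact hv3.2.2.1 h
  have d23 : x2 * y3 - x3 * y2 ≠ 0 := by
    intro h
    rcases irr_parallel A B C s hs x2 y2 x3 y3 q2 q3 h with h | h
    · exact hv3.2.2.2.1 h
    · exact hv3.2.2.2.2 h
  have hD : ((x1 : ℝ) * y2 - x2 * y1) * (x1 * y3 - x3 * y1) * (x2 * y3 - x3 * y2) ≠ 0 := by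
    have h : (x1 * y2 - x2 * y1) * (x1 * y3 - x3 * y1) * (x2 * y3 - x3 * y2) ≠ 0 :=
      mul_ne_zero (mul_ne_zero d12 d13) d23
    exact_mod_cast h
  refine ⟨s / (((x1 : ℝ) * y2 - x2 * y1) * (x1 * y3 - x3 * y1) * (x2 * y3 - x3 * y2)),
    (x2 * y2 * y3 ^ 2 - x3 * y3 * y2 ^ 2) - (x1 * y1 * y3 ^ 2 - x3 * y3 * y1 ^ 2) +
      (x1 * y1 * y2 ^ 2 - x2 * y2 * y1 ^ 2),
    -(x2 ^ 2 * y3 ^ 2 - x3 ^ 2 * y2 ^ 2) + (x1 ^ 2 * y3 ^ 2 - x3 ^ 2 * y1 ^ 2) -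
      (x1 ^ 2 * y2 ^ 2 - x2 ^ 2 * y1 ^ 2),
    (x2 ^ 2 * (x3 * y3) - x3 ^ 2 * (x2 * y2)) - (x1 ^ 2 * (x3 * y3) - x3 ^ 2 * (x1 * y1)) +
      (x1 ^ 2 * (x2 * y2) - x2 ^ 2 * (x1 * y1)), ?_, ?_, ?_⟩
  · rw [div_mul_eq_mul_div, eq_div_iff hD]
    push_cast
    linear_combination ((x2 : ℝ) * y2 * y3 ^ 2 - x3 * y3 * y2 ^ 2) * q1 -
      ((x1 : ℝ) * y1 * y3 ^ 2 - x3 * y3 * y1 ^ 2) * q2 +
      ((x1 : ℝ) * y1 * y2 ^ 2 - x2 * y2 * y1 ^ 2) * q3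
  · rw [div_mul_eq_mul_div, eq_div_iff hD]
    push_cast
    linear_combination (-((x2 : ℝ) ^ 2 * y3 ^ 2 - x3 ^ 2 * y2 ^ 2)) * q1 +
      ((x1 : ℝ) ^ 2 * y3 ^ 2 - x3 ^ 2 * y1 ^ 2) * q2 -
      ((x1 : ℝ) ^ 2 * y2 ^ 2 - x2 ^ 2 * y1 ^ 2) * q3
  · rw [div_mul_eq_mul_div, eq_div_iff hD]
    push_cast
    linear_combination ((x2 : ℝ) ^ 2 * (x3 * y3) - x3 ^ 2 * (x2 * y2)) * q1 -
      ((x1 : ℝ) ^ 2 * (x3 * y3) - x3 ^ 2 * (x1 * y1)) * q2 +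
      ((x1 : ℝ) ^ 2 * (x2 * y2) - x2 ^ 2 * (x1 * y1)) * q3

end Pool.Agent.Helper37.DG
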